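import Pool.Agent.Helper53.PF.St

/-!
# Project PF (MP_ad0dc2_nt): module DSC (descent to the rational numbers)
-/

set_option autoImplicit false

open Polynomial IntermediateField

namespace PF.Helper42

open PF

private noncomputable def κ0 : ℂ := Complex.I / ((Real.sqrt 3 : ℝ) : ℂ)

private theorem κ0_sq : 3 * κ0 ^ 2 + 1 = 0 := by
  have h3 : ((Real.sqrt 3 : ℝ) : ℂ) ^ 2 = 3 := by
    rw [← Complex.ofReal_pow, Real.sq_sqrt (by norm_num)]
    norm_num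
  have h0 : ((Real.sqrt 3 : ℝ) : ℂ) ≠ 0 := by
    intro h
    rw [h] at h3
    norm_num at h3
  unfold κ0
  rw [div_pow, h3, Complex.I_sq]
  norm_num

private theorem aev : aeval κ0 (C 3 * X ^ 2 + C 1 : ℚ[X]) = 0 := by
  rw [map_add, map_mul, map_pow, aeval_X, aeval_C, aeval_C]
  have := κ0_sq
  simpa using this

private theorem pne : (C 3 * X ^ 2 + C 1 : ℚ[X]) ≠ 0 := by
  intro h
  have := congrArg (fun p : ℚ[X] => p.coeff 0) h
  simp at this

private theorem pdeg : (C 3 * X ^ 2 + C 1 : ℚ[X]).natDegree ≤ 2 := by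
  compute_degree

private theorem integ : IsIntegral ℚ κ0 := by
  have : IsAlgebraic ℚ κ0 := ⟨_, pne, aev⟩
  exact this.isIntegral

private theorem fr : Module.finrank ℚ ℚ⟮κ0⟯ ≤ 2 := by
  rw [IntermediateField.adjoin.finrank integ]
  exact (natDegree_le_natDegree (minpoly.degree_le_of_ne_zero ℚ κ0 pne aev)).trans pdeg

theorem holds_DSC : PF.StDSC := by
  intro hREL n hn s z w hC
  have hfd : FiniteDimensional ℚ ℚ⟮κ0⟯ := IntermediateField.adjoin.finiteDimensional integ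
  obtain ⟨φ, hφ⟩ := LinearMap.exists_leftInverse_of_injective
    (Algebra.linearMap ℚ ℚ⟮κ0⟯) (LinearMap.ker_eq_bot.2 (algebraMap ℚ ℚ⟮κ0⟯).injective)
  have hφ1 : ∀ q : ℚ, φ (algebraMap ℚ ℚ⟮κ0⟯ q) = q := fun q => LinearMap.congr_fun hφ q
  have hφ2 : ∀ (b : ℚ⟮κ0⟯) (q : ℚ), φ (b * algebraMap ℚ ℚ⟮κ0⟯ q) = φ b * q := by
    intro b q
    rw [mul_comm b, ← Algebra.smul_def, map_smul, smul_eq_mul, mul_comm]
  obtain ⟨κ, hκ⟩ : ∃ κ : ℚ⟮κ0⟯, 3 * κ ^ 2 + 1 = 0 := by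
    refine ⟨⟨κ0, mem_adjoin_simple_self ℚ κ0⟩, ?_⟩
    apply Subtype.ext
    push_cast
    exact κ0_sq
  have hcube : ∀ a : ℚ⟮κ0⟯, a ^ 3 ≠ algebraMap ℚ ℚ⟮κ0⟯ n := by
    intro a ha
    have hirr : Irreducible (X ^ 3 - C n : ℚ[X]) :=
      X_pow_sub_C_irreducible_of_prime Nat.prime_three fun b => hn b
    have hroot : aeval a (X ^ 3 - C n : ℚ[X]) = 0 := by
      rw [map_sub, map_pow, aeval_X, aeval_C, ha, sub_self]
    have hmin : (minpoly ℚ a).natDegree = 3 := by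
      have h1 := minpoly.eq_of_irreducible_of_monic hirr hroot (monic_X_pow_sub_C n (by norm_num))
      rw [← h1, natDegree_X_pow_sub_C]
    have hdvd : (minpoly ℚ a).natDegree ∣ Module.finrank ℚ ℚ⟮κ0⟯ :=
      minpoly.degree_dvd (IsIntegral.of_finite ℚ a)
    rw [hmin] at hdvd
    have hpos : 0 < Module.finrank ℚ ℚ⟮κ0⟯ := Module.finrank_pos
    have := Nat.le_of_dvd hpos hdvd
    have := fr
    omega
  have hC' : Crv (algebraMap ℚ ℚ⟮κ0⟯ n) (s.map (algebraMap ℚ ℚ⟮κ0⟯))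
      (z.map (algebraMap ℚ ℚ⟮κ0⟯)) (w.map (algebraMap ℚ ℚ⟮κ0⟯)) := by
    refine ⟨?_, ?_, ?_, ?_⟩
    · rw [natDegree_map]
      exact hC.ds
    · rw [natDegree_map]
      exact hC.dz
    · rw [natDegree_map]
      exact hC.dw
    · have h := congrArg (Polynomial.map (algebraMap ℚ ℚ⟮κ0⟯)) hC.eq
      simp only [Polynomial.map_add, Polynomial.map_mul, Polynomial.map_pow, Polynomial.map_ofNat,
        map_C, map_mul, map_ofNat] at h
      rw [h, map_mul, map_ofNat]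
  obtain ⟨b, g, d, e, hw⟩ := hREL ℚ⟮κ0⟯ κ (algebraMap ℚ ℚ⟮κ0⟯ n) hκ hcube _ _ _ hC'
  refine ⟨φ b, φ g, φ d, φ e, ?_⟩
  ext i
  have h := congrArg (fun p => φ (p.coeff i)) hw
  rw [← Polynomial.map_pow, coeff_add, coeff_add, coeff_add, coeff_C_mul, coeff_C_mul, coeff_C_mul,
    coeff_map, coeff_map, coeff_map, coeff_map, map_add, map_add, map_add, hφ1, hφ2, hφ2, hφ2] at h
  rw [h, coeff_add, coeff_add, coeff_add, coeff_C_mul, coeff_C_mul, coeff_C_mul, coeff_C, coeff_C]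
  congr 1
  split_ifs
  · rfl
  · rw [map_zero]

end PF.Helper42
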